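import Pool.Agent.helper13.RF.Spec1

set_option autoImplicit false

open NumberField
open scoped nonZeroDivisors

namespace Pool.Agent.RF

theorem BIG : BIG_stmt := by
  intro K N _ _ _ _ _ B
  classical
  have hfin : FiniteDimensional K N := Module.Finite.of_restrictScalars_finite ℚ K N
  let Ω := AlgebraicClosure N
  have halg : Algebra.IsAlgebraic K Ω := Algebra.IsAlgebraic.trans K N Ω
  have hclos : IsAlgClosure K Ω := ⟨inferInstance, halg⟩
  have hnorm : Normal K Ω := IsAlgClosure.normal K Ω
  have hex : ∀ b : N, ∃ z : Ω, z ^ 5 = algebraMap N Ω b := fun b =>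
    IsAlgClosed.exists_pow_nat_eq (algebraMap N Ω b) (by norm_num : 0 < 5)
  choose f hf using hex
  let j : N →ₐ[K] Ω := IsScalarTower.toAlgHom K N Ω
  let S : Set Ω := f '' (B : Set N)
  have hSfin : Finite S := (B.finite_toSet.image f).to_subtype
  have hE1 : FiniteDimensional K j.fieldRange := by
    have h1 : FiniteDimensional K j.range := Module.Finite.range j.toLinearMap
    exact h1
  have hE2 : FiniteDimensional K (IntermediateField.adjoin K S) :=
    IntermediateField.finiteDimensional_adjoin (fun x _ => (halg.isAlgebraic x).isIntegral)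
  let E : IntermediateField K Ω := j.fieldRange ⊔ IntermediateField.adjoin K S
  have hE : FiniteDimensional K E := IntermediateField.finiteDimensional_sup _ _
  let M : IntermediateField K Ω := IntermediateField.normalClosure K E Ω
  have hEM : E ≤ M := IntermediateField.le_normalClosure E
  have hMfin : FiniteDimensional K M := normalClosure.is_finiteDimensional K E Ω
  have hjM : ∀ x : N, j x ∈ M := fun x =>
    hEM ((le_sup_left : j.fieldRange ≤ E) ⟨x, rfl⟩)
  have hfM : ∀ b ∈ B, f b ∈ M := fun b hb =>
    hEM ((le_sup_right : IntermediateField.adjoin K S ≤ E) (IntermediateField.subset_adjoin K S ⟨b, hb, rfl⟩))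
  let jM : N →+* M := (j : N →+* Ω).codRestrict M.toSubfield (fun x => hjM x)
  letI : Algebra N M := jM.toAlgebra
  have hNF : NumberField M := NumberField.of_module_finite K M
  have htow : IsScalarTower K N M := IsScalarTower.of_algebraMap_eq (fun x => by
    apply Subtype.ext
    exact (j.commutes x).symm)
  refine ⟨M, inferInstance, hNF, inferInstance, inferInstance, htow, ?_, ?_⟩
  · have h1 : Normal K M := normalClosure.normal K E Ω
    exact ⟨⟩
  · intro b hb
    refine ⟨⟨f b, hfM b hb⟩, ?_⟩
    apply Subtype.ext
    exact hf b

end Pool.Agent.RF
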