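import Pool.Agent.helper13.RF.Spec1

set_option autoImplicit false

open NumberField
open scoped nonZeroDivisors

namespace Pool.Agent.RF

open Polynomial in
theorem LIN : LIN_stmt := by
  intro N M _ _ _ _ ζ β β' α α' hζ hα hα' hβ hβ' hg hg' hadj
  have hirr : Irreducible (X ^ 5 - C β : N[X]) :=
    X_pow_sub_C_irreducible_of_prime (by norm_num : Nat.Prime 5) (fun b hb => hg ⟨b, hb.symm⟩)
  have hmon : (X ^ 5 - C β : N[X]).Monic := monic_X_pow_sub_C β (by norm_num)
  have hroot : ∀ y : M, y ^ 5 = algebraMap N M β → aeval y (X ^ 5 - C β : N[X]) = 0 := by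
    intro y hy
    rw [map_sub, map_pow, aeval_X, aeval_C, hy, sub_self]
  have hmin : (X ^ 5 - C β : N[X]) = minpoly N α := minpoly.eq_of_irreducible_of_monic hirr (hroot α hα) hmon
  have hdeg : (minpoly N α).degree = 5 := by
    rw [← hmin, degree_X_pow_sub_C (by norm_num)]
    rfl
  have hint : IsIntegral N α := ⟨X ^ 5 - C β, hmon, by rw [← aeval_def]; exact hroot α hα⟩
  have hmem : α' ∈ IntermediateField.adjoin N {α} := by
    rw [hadj]
    exact IntermediateField.mem_adjoin_simple_self N α'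
  have hmem2 : α' ∈ Algebra.adjoin N {α} := by
    rw [← IntermediateField.adjoin_simple_toSubalgebra_of_isAlgebraic hint.isAlgebraic]
    exact hmem
  rw [Algebra.adjoin_singleton_eq_range_aeval] at hmem2
  obtain ⟨p, hp⟩ := hmem2
  have hp' : aeval α p = α' := hp
  obtain ⟨q, hq⟩ : ∃ q : N[X], q = p %ₘ (minpoly N α) := ⟨_, rfl⟩
  have hq1 : aeval α q = α' := by
    rw [hq, aeval_modByMonic_eq_self_of_root (minpoly.aeval N α), hp']
  have hq2 : ∀ m, 5 ≤ m → q.coeff m = 0 := by
    have h1 : q.degree < 5 := by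
      rw [hq, ← hdeg]
      exact degree_modByMonic_lt _ (minpoly.monic hint)
    exact (degree_lt_iff_coeff_zero q 5).mp h1
  -- q(ζ α)^5 = β'
  have hζ5 : (algebraMap N M ζ) ^ 5 = 1 := by rw [← map_pow, hζ.pow_eq_one, map_one]
  have h1 : aeval (algebraMap N M ζ * α) (q ^ 5 - C β') = 0 := by
    have hd : minpoly N α ∣ q ^ 5 - C β' := by
      apply minpoly.dvd
      rw [map_sub, map_pow, hq1, aeval_C, hα', sub_self]
    obtain ⟨w, hw⟩ := hd
    rw [hw, map_mul, ← hmin, hroot, zero_mul]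
    rw [mul_pow, hζ5, one_mul, hα]
  rw [map_sub, map_pow, aeval_C] at h1
  have h2 : (aeval (algebraMap N M ζ * α) q) ^ 5 = α' ^ 5 := by
    rw [hα']
    exact sub_eq_zero.mp h1
  have hα'0 : α' ≠ 0 := by
    rintro rfl
    rw [zero_pow (by norm_num)] at hα'
    apply hβ'
    exact (map_eq_zero (algebraMap N M)).mp hα'.symm
  have hζM : IsPrimitiveRoot (algebraMap N M ζ) 5 := hζ.map_of_injective (algebraMap N M).injective
  have h3 : (aeval (algebraMap N M ζ * α) q / α') ^ 5 = 1 := by
    rw [div_pow, h2, div_self (pow_ne_zero 5 hα'0)]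
  obtain ⟨k, hk5, hk⟩ := hζM.eq_pow_of_pow_eq_one h3
  have h4 : aeval (algebraMap N M ζ * α) q = algebraMap N M (ζ ^ k) * α' := by
    rw [map_pow, hk, div_mul_cancel₀ _ hα'0]
  -- comparison of coefficients
  have hP : q.comp (C ζ * X) - C (ζ ^ k) * q = 0 := by
    refine eq_zero_of_dvd_of_degree_lt (p := minpoly N α) (minpoly.dvd N α ?_) ?_
    · rw [map_sub, aeval_comp, map_mul, map_mul, aeval_C, aeval_X, h4, aeval_C, hq1, sub_self]
    · rw [hdeg]
      refine (degree_lt_iff_coeff_zero _ 5).mpr fun m hm => ?_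
      rw [coeff_sub, comp_C_mul_X_coeff, coeff_C_mul, hq2 m hm]
      ring
  have hc : ∀ i, i < 5 → i ≠ k → q.coeff i = 0 := by
    intro i hi hik
    have h5 := congrArg (fun f => f.coeff i) hP
    simp only [coeff_sub, comp_C_mul_X_coeff, coeff_C_mul, coeff_zero] at h5
    have h6 : q.coeff i * (ζ ^ i - ζ ^ k) = 0 := by linear_combination h5
    rcases mul_eq_zero.mp h6 with h | h
    · exact h
    · exfalso
      exact hik (hζ.pow_inj hi hk5 (sub_eq_zero.mp h))
  have hqk : q = C (q.coeff k) * X ^ k := by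
    ext m
    rw [coeff_C_mul, coeff_X_pow]
    by_cases h : m = k
    · rw [if_pos h, mul_one, h]
    · rw [if_neg h, mul_zero]
      rcases lt_or_ge m 5 with h5 | h5
      · exact hc m h5 h
      · exact hq2 m h5
  have h7 : α' = algebraMap N M (q.coeff k) * α ^ k := by
    rw [← hq1]
    conv_lhs => rw [hqk]
    rw [map_mul, aeval_C, map_pow, aeval_X]
  have h8 : β' = β ^ k * (q.coeff k) ^ 5 := by
    apply (algebraMap N M).injective
    rw [← hα', h7, mul_pow, ← pow_mul, mul_comm k 5, pow_mul, hα, map_mul, map_pow, map_pow]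
    ring
  refine ⟨k, ?_, by omega, q.coeff k, h8⟩
  rcases Nat.eq_zero_or_pos k with h | h
  · exfalso
    apply hg'
    refine ⟨q.coeff k, ?_⟩
    have h9 := h8
    rw [h, pow_zero, one_mul] at h9
    rw [h]
    exact h9
  · exact h

end Pool.Agent.RF
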